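import Pool.Agent.H728Z.RC.Spec

/-! An Euler characteristic count through cocycles with values in the field with three elements. -/

set_option autoImplicit false

namespace Pool.Agent.H728Z.RC

namespace Count

section General

variable {H G : Type} [Group H] [Group G] (θ : H →* G)

/-- orbit relation of the left action of `H` through `θ` -/
def rel : Setoid G where
  r x y := ∃ h, y = θ h * x
  iseqv := ⟨fun x => ⟨1, by simp⟩, fun ⟨h, e⟩ => ⟨h⁻¹, by simp [e]⟩,
    fun ⟨h, e⟩ ⟨h', e'⟩ => ⟨h' * h, by simp [e, e', mul_assoc]⟩⟩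

/-- orbit space -/
def Q : Type := Quotient (rel θ)

/-- class of a point -/
def cl (x : G) : Q θ := Quotient.mk (rel θ) x

theorem cl_surj (q : Q θ) : ∃ x, cl θ x = q := Quotient.exists_rep q

theorem cl_eq {x y : G} : cl θ x = cl θ y ↔ ∃ h, y = θ h * x := Quotient.eq (r := rel θ)

theorem cl_mul (h : H) (x : G) : cl θ (θ h * x) = cl θ x := ((cl_eq θ).2 ⟨h, rfl⟩).symm

/-- right action on the orbit space -/
def act (q : Q θ) (a : G) : Q θ :=
  Quotient.lift (s := rel θ) (fun x => cl θ (x * a))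
    (fun x y ⟨h, e⟩ => (cl_eq θ).2 ⟨h, by simp [e, mul_assoc]⟩) q

theorem act_cl (x a : G) : act θ (cl θ x) a = cl θ (x * a) := rfl

theorem act_mul (q : Q θ) (a b : G) : act θ (act θ q a) b = act θ q (a * b) := by
  obtain ⟨x, rfl⟩ := cl_surj θ q
  simp [act_cl, mul_assoc]

theorem act_one (q : Q θ) : act θ q 1 = q := by
  obtain ⟨x, rfl⟩ := cl_surj θ q
  simp [act_cl]

/-- invariant cocycles -/
def Z : Type := {c : G → G → ZMod 3 //
  (∀ x y z, c x y + c y z = c x z) ∧ ∀ h x y, c (θ h * x) (θ h * y) = c x y}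

/-- values of a cocycle on generators -/
def ev {J : Type} (g : J → G) (c : Z θ) (j : J) (q : Q θ) : ZMod 3 :=
  Quotient.lift (s := rel θ) (fun x => c.1 x (x * g j))
    (fun x y ⟨h, e⟩ => by
      have := c.2.2 h x (x * g j)
      simp only [e, mul_assoc]
      exact this.symm) q

theorem ev_cl {J : Type} (g : J → G) (c : Z θ) (j : J) (x : G) :
    ev θ g c j (cl θ x) = c.1 x (x * g j) := rfl

theorem z_self (c : Z θ) (x : G) : c.1 x x = 0 := by
  have := c.2.1 x x x
  simpa using this

theorem ev_inj {J : Type} (g : J → G) (hg : Subgroup.closure (Set.range g) = ⊤) :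
    Function.Injective (ev θ g) := by
  intro c d e
  have key : ∀ a : G, ∀ x, c.1 x (x * a) = d.1 x (x * a) := by
    intro a
    have ha : a ∈ Subgroup.closure (Set.range g) := by rw [hg]; trivial
    induction ha using Subgroup.closure_induction with
    | mem a ha =>
      obtain ⟨j, rfl⟩ := ha
      intro x
      rw [← ev_cl, ← ev_cl, e]
    | one => intro x; simp [z_self]
    | mul a b _ _ iha ihb =>
      intro x
      rw [← mul_assoc, ← c.2.1 x (x * a), ← d.2.1 x (x * a), iha, ihb]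
    | inv a _ ih =>
      intro x
      have h1 := c.2.1 x (x * a⁻¹) x
      have h2 := d.2.1 x (x * a⁻¹) x
      have h3 := ih (x * a⁻¹)
      rw [inv_mul_cancel_right] at h3
      rw [z_self] at h1 h2
      linear_combination h1 - h2 - h3
  apply Subtype.ext
  funext x y
  have := key (x⁻¹ * y) x
  simpa using this

/-- the permutation attached to one generator -/
def P (a : G) (m : Q θ → ZMod 3) : Equiv.Perm (Q θ × ZMod 3) where
  toFun p := (act θ p.1 a, p.2 + m p.1)
  invFun p := (act θ p.1 a⁻¹, p.2 - m (act θ p.1 a⁻¹))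
  left_inv p := by simp [act_mul, act_one]
  right_inv p := by simp [act_mul, act_one]

theorem ev_surj {J : Type} (g : J → G) (hg : Subgroup.closure (Set.range g) = ⊤)
    (m : J → Q θ → ZMod 3) (ρ : G →* Equiv.Perm (Q θ × ZMod 3))
    (hρ : ∀ j, ρ (g j) = (P θ (g j) (m j))⁻¹) : ∃ c : Z θ, ev θ g c = m := by
  have key : ∀ a : G, ∀ q r, ρ a (q, r) = (act θ q a⁻¹, r + (ρ a (q, 0)).2) := by
    intro a
    have ha : a ∈ Subgroup.closure (Set.range g) := by rw [hg]; trivial
    induction ha using Subgroup.closure_induction with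
    | mem a ha =>
      obtain ⟨j, rfl⟩ := ha
      intro q r
      rw [hρ]
      change (act θ q (g j)⁻¹, r - m j (act θ q (g j)⁻¹)) =
        (act θ q (g j)⁻¹, r + (0 - m j (act θ q (g j)⁻¹)))
      congr 1
      ring
    | one => intro q r; simp [act_one]
    | mul a b _ _ iha ihb =>
      intro q r
      rw [map_mul, Equiv.Perm.mul_apply, Equiv.Perm.mul_apply, ihb q r, ihb q 0, iha,
        iha _ (0 + _), act_mul, mul_inv_rev]
      congr 1
      ring
    | inv a _ ih =>
      intro q r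
      have h : ∀ r, ρ a⁻¹ (q, r) = (act θ q a, r - (ρ a (act θ q a, 0)).2) := by
        intro r
        rw [map_inv, Equiv.Perm.inv_eq_iff_eq, ih, act_mul]
        simp [act_one]
      rw [h r, h 0, inv_inv]
      congr 1
      ring
  refine ⟨⟨fun x y => (ρ (y⁻¹ * x) (cl θ x, 0)).2, ?_, ?_⟩, ?_⟩
  · intro x y z
    have e : z⁻¹ * x = (z⁻¹ * y) * (y⁻¹ * x) := by group
    have e2 : x * (y⁻¹ * x)⁻¹ = y := by group
    beta_reduce
    rw [e, map_mul ρ (z⁻¹ * y) (y⁻¹ * x), Equiv.Perm.mul_apply]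
    have k1 := key (y⁻¹ * x) (cl θ x) 0
    rw [act_cl, e2, zero_add] at k1
    generalize (ρ (y⁻¹ * x) (cl θ x, 0)) = w at k1 ⊢
    obtain ⟨w1, w2⟩ := w
    have k2 : w1 = cl θ y := congrArg Prod.fst k1
    subst k2
    rw [key (z⁻¹ * y) (cl θ y) w2]
  · intro h x y
    have e : (θ h * y)⁻¹ * (θ h * x) = y⁻¹ * x := by group
    beta_reduce
    rw [e, cl_mul]
  · funext j q
    obtain ⟨x, rfl⟩ := cl_surj θ q
    rw [ev_cl]
    have e : (x * g j)⁻¹ * x = (g j)⁻¹ := by group
    change (ρ ((x * g j)⁻¹ * x) (cl θ x, 0)).2 = _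
    rw [e, map_inv, hρ, inv_inv]
    change 0 + m j (cl θ x) = _
    simp

theorem q_finite (h : θ.range.index ≠ 0) : Finite (Q θ) := by
  have : θ.range.FiniteIndex := ⟨h⟩
  have hf : Finite (G ⧸ θ.range) := inferInstance
  refine Finite.of_surjective (fun c : G ⧸ θ.range => cl θ (c.out)⁻¹) ?_
  intro q
  obtain ⟨x, rfl⟩ := cl_surj θ q
  refine ⟨(x⁻¹ : G), ?_⟩
  obtain ⟨⟨_, h, rfl⟩, e⟩ := QuotientGroup.mk_out_eq_mul θ.range x⁻¹
  simp only [e]
  exact (cl_eq θ).2 ⟨h, by group⟩

end General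

/-- a fixed point free involution: antisymmetric functions are half of all functions -/
theorem anti_sq {T : Type} [Finite T] (τ : T → T) (h2 : ∀ q, τ (τ q) = q) (hf : ∀ q, τ q ≠ q) :
    Nat.card {m : T → ZMod 3 // ∀ q, m (τ q) = - m q} ^ 2 = 3 ^ Nat.card T := by
  classical
  let _ : LinearOrder T := linearOrderOfSTO WellOrderingRel
  let ε : T → ZMod 3 := fun q => if q < τ q then 1 else -1
  have hε : ∀ q, ε (τ q) = - ε q := by
    intro q
    simp only [ε, h2]
    rcases lt_or_gt_of_ne (hf q) with h | h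
    · rw [if_pos h, if_neg (not_lt.2 h.le)]; simp
    · rw [if_neg (not_lt.2 h.le), if_pos h]
  have hε2 : ∀ q, ε q * ε q = 1 := by
    intro q
    simp only [ε]
    split_ifs <;> simp
  have h3 : (3 : ZMod 3) = 0 := rfl
  let e : (T → ZMod 3) ≃ {m : T → ZMod 3 // ∀ q, m (τ q) = - m q} ×
      {m : T → ZMod 3 // ∀ q, m (τ q) = - m q} :=
    { toFun := fun m => (⟨fun q => m q - m (τ q), fun q => by beta_reduce; rw [h2]; ring⟩,
        ⟨fun q => ε q * (m q + m (τ q)), fun q => by beta_reduce; rw [h2, hε]; ring⟩)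
      invFun := fun p q => - (p.1.1 q + ε q * p.2.1 q)
      left_inv := fun m => by
        funext q
        simp only
        linear_combination (-(m q + m (τ q))) * hε2 q - m q * h3
      right_inv := fun p => by
        obtain ⟨⟨a, ha⟩, ⟨b, hb⟩⟩ := p
        refine Prod.ext (Subtype.ext ?_) (Subtype.ext ?_)
        · funext q
          simp only [ha, hb, hε]
          linear_combination (- a q) * h3
        · funext q
          simp only [ha, hb, hε]
          linear_combination (-2 * b q) * hε2 q - b q * h3 }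
  have := Nat.card_congr e
  rw [Nat.card_prod, Nat.card_fun, Nat.card_zmod] at this
  rw [this, sq]

end Count

open _root_.Pool.Agent.H728Z.RC.Count in
theorem count_thm : CountStmt := by
  intro F L _ _ ι _ t s ht uF hs hs2 uL H _ φ ψ β hβ hidx htf
  have fQ : Finite (Q φ) := q_finite φ hidx
  have hβ' : ∀ h y, β.symm (ψ h * y) = φ h * β.symm y := by
    intro h y
    apply β.injective
    rw [hβ]
    simp
  let eQ : Q φ ≃ Q ψ := Quotient.congr β (fun x y => by
    change (∃ h, y = φ h * x) ↔ ∃ h, β y = ψ h * β x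
    refine exists_congr fun h => ?_
    rw [← hβ, β.apply_eq_iff_eq])
  have fQ' : Finite (Q ψ) := Finite.of_equiv _ eQ
  let eZ : Z φ ≃ Z ψ :=
    { toFun := fun c => ⟨fun x y => c.1 (β.symm x) (β.symm y), fun x y z => c.2.1 _ _ _,
        fun h x y => by simp only [hβ', c.2.2]⟩
      invFun := fun c => ⟨fun x y => c.1 (β x) (β y), fun x y z => c.2.1 _ _ _,
        fun h x y => by simp only [hβ, c.2.2]⟩
      left_inv := fun c => by apply Subtype.ext; funext x y; simp
      right_inv := fun c => by apply Subtype.ext; funext x y; simp }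
  have c1 : Nat.card (Z φ) = (3 ^ Nat.card (Q φ)) ^ Nat.card ι := by
    have hb : Function.Bijective (ev φ t) := ⟨ev_inj φ t ht, fun m => by
      obtain ⟨ρ, hρ⟩ := uF _ (fun i => (P φ (t i) (m i))⁻¹)
      exact ev_surj φ t ht m ρ hρ⟩
    rw [Nat.card_congr (Equiv.ofBijective _ hb), Nat.card_fun, Nat.card_fun, Nat.card_zmod]
  have inv2 : ∀ j q, act ψ (act ψ q (s j)) (s j) = q := by
    intro j q
    rw [act_mul, hs2, act_one]
  have c2 : Nat.card (Z ψ) =
      ∏ j : Fin 5, Nat.card {m : Q ψ → ZMod 3 // ∀ q, m (act ψ q (s j)) = - m q} := by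
    rw [← Nat.card_pi]
    have hanti : ∀ (c : Z ψ) j q, ev ψ s c j (act ψ q (s j)) = - ev ψ s c j q := by
      intro c j q
      obtain ⟨x, rfl⟩ := cl_surj ψ q
      rw [act_cl, ev_cl, ev_cl, mul_assoc, hs2, mul_one]
      have := c.2.1 x (x * s j) x
      rw [z_self] at this
      linear_combination this
    refine Nat.card_congr (Equiv.ofBijective (fun c j => ⟨ev ψ s c j, hanti c j⟩) ⟨?_, ?_⟩)
    · intro c d e
      apply ev_inj ψ s hs
      funext j
      exact congrArg Subtype.val (congrFun e j)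
    · intro m
      obtain ⟨ρ, hρ⟩ := uL _ (fun j => (P ψ (s j) (m j).1)⁻¹) (fun j => by
        rw [← mul_inv_rev, inv_eq_one]
        refine Equiv.ext fun p => ?_
        change (act ψ (act ψ p.1 (s j)) (s j), p.2 + (m j).1 p.1 + (m j).1 (act ψ p.1 (s j))) = p
        rw [inv2, (m j).2]
        simp)
      obtain ⟨c, hc⟩ := ev_surj ψ s hs (fun j => (m j).1) ρ hρ
      refine ⟨c, ?_⟩
      funext j
      exact Subtype.ext (congrFun hc j)
  have c3 : Nat.card (Z ψ) ^ 2 = (3 ^ Nat.card (Q ψ)) ^ 5 := by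
    rw [c2, ← Finset.prod_pow]
    rw [Finset.prod_congr rfl (fun j _ => anti_sq (fun q => act ψ q (s j)) (inv2 j) (fun q hq => by
      obtain ⟨x, rfl⟩ := cl_surj ψ q
      rw [act_cl] at hq
      obtain ⟨h, e⟩ := (cl_eq ψ).1 hq.symm
      exact htf h x j (by rw [e]; group)))]
    simp
  rw [← Nat.card_congr eZ, c1, ← Nat.card_congr eQ, ← pow_mul, ← pow_mul, ← pow_mul] at c3
  have hk : 0 < Nat.card (Q φ) := by
    have : Nonempty (Q φ) := ⟨cl φ 1⟩
    exact Nat.card_pos
  have := Nat.pow_right_injective (by norm_num : 2 ≤ 3) c3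
  have h5 : Nat.card ι * 2 = 5 := Nat.eq_of_mul_eq_mul_left hk this
  omega

end Pool.Agent.H728Z.RC
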